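import Pool.Agent.Lib.IXE.Sp

/-!
# Row Av: primes in a residue class which avoid a sparse set, twice
-/

set_option autoImplicit false

namespace Pool.Agent.Lib.IXE

private noncomputable def gg (n : ℕ) : ℝ := Real.log ((n : ℝ) + 1) / ((n : ℝ) + 1)

private theorem gg_nonneg (n : ℕ) : 0 ≤ gg n := by
  have h : (1 : ℝ) ≤ (n : ℝ) + 1 := by
    have := Nat.cast_nonneg (α := ℝ) n
    linarith
  exact div_nonneg (Real.log_nonneg h) (by linarith)

/-- the function whose sum diverges -/
private noncomputable def FF (M c n : ℕ) : ℝ :=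
  (if n.Prime then ArithmeticFunction.vonMangoldt.residueClass (c : ZMod M) n else 0) / n

private theorem FF_nonneg (M c n : ℕ) : 0 ≤ FF M c n := by
  unfold FF
  refine div_nonneg ?_ (Nat.cast_nonneg _)
  split_ifs
  · exact ArithmeticFunction.vonMangoldt.residueClass_nonneg _ _
  · exact le_rfl

private theorem FF_le (M c n : ℕ) : FF M c n ≤ Real.log n / n := by
  unfold FF
  refine div_le_div_of_nonneg_right ?_ (Nat.cast_nonneg _)
  split_ifs
  · exact (ArithmeticFunction.vonMangoldt.residueClass_le _ _).trans ArithmeticFunction.vonMangoldt_le_log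
  · exact Real.log_natCast_nonneg n

private theorem FF_supp {M c n : ℕ} (h : FF M c n ≠ 0) : n.Prime ∧ n ≡ c [MOD M] := by
  unfold FF at h
  by_cases hp : n.Prime
  · rw [if_pos hp] at h
    refine ⟨hp, ?_⟩
    by_contra hne
    refine h ?_
    have h1 : ArithmeticFunction.vonMangoldt.residueClass (c : ZMod M) n = 0 := by
      refine Set.indicator_of_notMem ?_ _
      intro hmem
      exact hne ((ZMod.natCast_eq_natCast_iff n c M).1 hmem)
    rw [h1, zero_div]
  · rw [if_neg hp, zero_div] at h
    exact absurd rfl h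

private theorem log_div_le (n : ℕ) : Real.log n / n ≤ 2 * gg n := by
  unfold gg
  rcases Nat.eq_zero_or_pos n with rfl | hn
  · simp
  have h1 : (1 : ℝ) ≤ n := by exact_mod_cast hn
  have h2 : Real.log n ≤ Real.log ((n : ℝ) + 1) := Real.log_le_log (by linarith) (by linarith)
  have h3 : 0 ≤ Real.log n := Real.log_nonneg h1
  rw [← mul_div_assoc, div_le_div_iff₀ (by linarith) (by linarith)]
  nlinarith

theorem prime_avoid {E : Set ℕ} (hE : Sparse E) {D M c : ℕ} (hD : 0 < D) (hM : M ≠ 0) (hc : Nat.Coprime c M) (hD1 : D ∣ M)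
    (hc1 : c ≡ 1 [MOD D]) :
    ∃ p : ℕ, 1 < p ∧ p.Prime ∧ p ≡ c [MOD M] ∧ p ∉ E ∧ (p - 1) / D + 1 ∉ E := by
  have : NeZero M := ⟨hM⟩
  by_contra hcon
  have hcon' : ∀ p : ℕ, p.Prime → p ≡ c [MOD M] → p ∉ E → (p - 1) / D + 1 ∈ E := by
    intro p hp hpc hpE
    by_contra hne
    exact hcon ⟨p, hp.one_lt, hp, hpc, hpE, hne⟩
  have h1 : Summable (E.indicator gg) := (summable_subtype_iff_indicator (f := gg) (s := E)).1 hE
  have ha : IsUnit (c : ZMod M) := (ZMod.isUnit_iff_coprime c M).2 hc
  refine ArithmeticFunction.vonMangoldt.not_summable_residueClass_prime_div ha ?_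
  have hA : Summable (E.indicator (FF M c)) := by
    refine Summable.of_nonneg_of_le (fun n => Set.indicator_nonneg (fun n _ => FF_nonneg M c n) n) (fun n => ?_)
      (h1.mul_left 2)
    by_cases hn : n ∈ E
    · rw [Set.indicator_of_mem hn, Set.indicator_of_mem hn]
      exact (FF_le M c n).trans (log_div_le n)
    · rw [Set.indicator_of_notMem hn, Set.indicator_of_notMem hn, mul_zero]
  have hB : Summable (Eᶜ.indicator (FF M c)) := by
    have hinj : Function.Injective (fun k : ℕ => D * k + 1) := by
      intro a b hab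
      have h2 : D * a = D * b := Nat.succ_injective hab
      exact Nat.eq_of_mul_eq_mul_left hD h2
    rw [← hinj.summable_iff]
    · have h3 : Summable (fun k : ℕ => (E.indicator gg) (k + 1)) :=
        h1.comp_injective (add_left_injective 1)
      refine Summable.of_nonneg_of_le
        (fun k => Set.indicator_nonneg (fun n _ => FF_nonneg M c n) _) (fun k => ?_)
        (h3.mul_left (2 * (Real.log D / Real.log 2 + 1)))
      change Eᶜ.indicator (FF M c) (D * k + 1) ≤ _
      have hD1r : (1 : ℝ) ≤ D := by exact_mod_cast hD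
      have hlogD : 0 ≤ Real.log D := Real.log_nonneg hD1r
      have hlog2 : 0 < Real.log 2 := Real.log_pos (by norm_num)
      have hC : 0 ≤ 2 * (Real.log D / Real.log 2 + 1) := by positivity
      have hrhs : 0 ≤ 2 * (Real.log D / Real.log 2 + 1) * (E.indicator gg) (k + 1) :=
        mul_nonneg hC (Set.indicator_nonneg (fun n _ => gg_nonneg n) _)
      by_cases hn : D * k + 1 ∈ Eᶜ
      · rw [Set.indicator_of_mem hn]
        by_cases h0 : FF M c (D * k + 1) = 0
        · rw [h0]
          exact hrhs
        · obtain ⟨hp, hpc⟩ := FF_supp h0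
          have h4 := hcon' _ hp hpc hn
          have h5 : (D * k + 1 - 1) / D + 1 = k + 1 := by
            rw [Nat.add_sub_cancel, Nat.mul_div_cancel_left _ hD]
          rw [h5] at h4
          rw [Set.indicator_of_mem h4]
          refine (FF_le M c _).trans ?_
          unfold gg
          push_cast
          have hk : (0 : ℝ) ≤ k := Nat.cast_nonneg k
          have hk2 : (2 : ℝ) ≤ (k : ℝ) + 1 + 1 := by linarith
          have hlogk : Real.log 2 ≤ Real.log ((k : ℝ) + 1 + 1) := Real.log_le_log (by norm_num) hk2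
          have h6 : Real.log ((D : ℝ) * k + 1) ≤ Real.log D + Real.log ((k : ℝ) + 1 + 1) := by
            rw [← Real.log_mul (by linarith) (by linarith)]
            refine Real.log_le_log (by positivity) ?_
            nlinarith
          have h7 : Real.log D ≤ Real.log D / Real.log 2 * Real.log ((k : ℝ) + 1 + 1) := by
            rw [div_mul_eq_mul_div, le_div_iff₀ hlog2]
            exact mul_le_mul_of_nonneg_left hlogk hlogD
          have h8 : Real.log ((D : ℝ) * k + 1) ≤ (Real.log D / Real.log 2 + 1) * Real.log ((k : ℝ) + 1 + 1) := by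
            linarith
          have h9 : (0 : ℝ) < (D : ℝ) * k + 1 := by positivity
          have h10 : (k : ℝ) + 1 + 1 ≤ 2 * ((D : ℝ) * k + 1) := by nlinarith
          have h11 : 0 ≤ Real.log ((k : ℝ) + 1 + 1) := hlog2.le.trans hlogk
          have h12 : 0 ≤ (Real.log D / Real.log 2 + 1) * Real.log ((k : ℝ) + 1 + 1) := by positivity
          rw [← mul_div_assoc, div_le_div_iff₀ h9 (by linarith)]
          calc Real.log ((D : ℝ) * k + 1) * ((k : ℝ) + 1 + 1)
              ≤ ((Real.log D / Real.log 2 + 1) * Real.log ((k : ℝ) + 1 + 1)) * (2 * ((D : ℝ) * k + 1)) :=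
                mul_le_mul h8 h10 (by linarith) h12
            _ = 2 * (Real.log D / Real.log 2 + 1) * Real.log ((k : ℝ) + 1 + 1) * ((D : ℝ) * k + 1) := by ring
      · rw [Set.indicator_of_notMem hn]
        exact hrhs
    · intro n hn
      by_cases hnE : n ∈ Eᶜ
      · rw [Set.indicator_of_mem hnE]
        by_contra h0
        obtain ⟨hp, hpc⟩ := FF_supp h0
        refine hn ?_
        have h2 : n ≡ 1 [MOD D] := (hpc.of_dvd hD1).trans hc1
        have h3 : D ∣ n - 1 := (Nat.modEq_iff_dvd' hp.one_lt.le).1 h2.symm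
        obtain ⟨k, hk⟩ := h3
        refine ⟨k, ?_⟩
        have := hp.one_lt
        change D * k + 1 = n
        omega
      · exact Set.indicator_of_notMem hnE _
  have h := hA.add hB
  have h2 : (fun n => E.indicator (FF M c) n + Eᶜ.indicator (FF M c) n) = FF M c := by
    funext n
    exact congrFun (Set.indicator_self_add_compl E (FF M c)) n
  rw [h2] at h
  exact h

end Pool.Agent.Lib.IXE
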