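import Pool.Agent.Lib.IXE.Def

/-!
# Row Cu: the cut system

Words. cut_up, cut_down: induction over CD. cut_acyc: Nul (cut S) Y Z → Nul S Y Z (cut_down for the two side derivations), so
TransGen is monotone (Relation.TransGen.mono) and a null cycle of cut S at Y is one of S; its first step (Relation.TransGen.head'_iff or
cases head) has a production r of cut S with lhs = Y, and r.2 says ¬ NC S (S.lhs r.1), contradiction.
-/

set_option autoImplicit false

namespace Pool.Agent.Lib.IXE

open Pool.Agent.Lib.IXD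

theorem cut_up {N R : Type} {S : Sys N R} {w : List N} {l : List R} {n : ℕ} (h : CD S w l n) (hl : ∀ r ∈ l, ¬ NC S (S.lhs r)) :
    ∃ l' : List {r : R // ¬ NC S (S.lhs r)}, l'.map Subtype.val = l ∧ CD (cut S) w l' n := by
  induction h with
  | nil => exact ⟨[], rfl, CD.nil⟩
  | @cons r w l n h ih =>
    obtain ⟨l', e, h'⟩ := ih fun r' hr' => hl r' (List.mem_cons_of_mem _ hr')
    have hr : ¬ NC S (S.lhs r) := hl r List.mem_cons_self
    refine ⟨⟨r, hr⟩ :: l', by rw [List.map_cons, e], ?_⟩
    have h2 : CD (cut S) ((cut S).rhs ⟨r, hr⟩ ++ w) l' n := h'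
    exact CD.cons h2

theorem cut_down {N R : Type} {S : Sys N R} {w : List N} {l' : List {r : R // ¬ NC S (S.lhs r)}} {n : ℕ}
    (h : CD (cut S) w l' n) : CD S w (l'.map Subtype.val) n := by
  induction h with
  | nil => exact CD.nil
  | @cons r w l n h ih =>
    have h2 : CD S (S.rhs r.1 ++ w) (l.map Subtype.val) n := ih
    exact CD.cons h2

theorem cut_acyc {N R : Type} (S : Sys N R) (Y : N) : ¬ NC (cut S) Y := by
  intro h
  have hmono : ∀ Y Z, Nul (cut S) Y Z → Nul S Y Z := by
    rintro Y Z ⟨r, u, v, l1, l2, h1, h2, h3, h4, h5⟩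
    exact ⟨r.1, u, v, l1.map Subtype.val, l2.map Subtype.val, h1, h2, h3, cut_down h4, cut_down h5⟩
  have hN : NC S Y := Relation.TransGen.mono hmono _ _ h
  obtain ⟨Z, ⟨r, u, v, l1, l2, h1, -⟩, -⟩ := Relation.TransGen.head'_iff.1 h
  have h2 : S.lhs r.1 = Y := h1
  exact r.2 (by rw [h2]; exact hN)

end Pool.Agent.Lib.IXE
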