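import Pool.Agent.Lib.IXD.Sys

/-!
# Null cycles of a system of productions
-/

set_option autoImplicit false

namespace Pool.Agent.Lib.IXE

open Pool.Agent.Lib.IXD

/-- `Z` occurs in the right side of a production of `Y` of weight zero, all other symbols of which vanish with weight zero -/
def Nul {N R : Type} (S : Sys N R) (Y Z : N) : Prop :=
  ∃ (r : R) (u v : List N) (l1 l2 : List R), S.lhs r = Y ∧ S.wt r = 0 ∧ S.rhs r = u ++ Z :: v ∧ CD S u l1 0 ∧ CD S v l2 0

/-- a null cycle at `Y` -/
def NC {N R : Type} (S : Sys N R) (Y : N) : Prop := Relation.TransGen (Nul S) Y Y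

/-- the system without the productions of the symbols with a null cycle -/
def cut {N R : Type} (S : Sys N R) : Sys N {r : R // ¬ NC S (S.lhs r)} where
  lhs r := S.lhs r.1
  wt r := S.wt r.1
  rhs r := S.rhs r.1

end Pool.Agent.Lib.IXE
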