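import Pool.Agent.Lib.IXE.Def
import Pool.Agent.Lib.IXD.CSa

/-!
# Row Fn: no null cycles, finitely many derivations of every weight

Words. cd_append, cd_split, cd_pf are in IXD/CSa. LEMMA A (induction over w, n general): if for all u Z v with w = u ++ Z :: v, all l1 a,
CD S u l1 a, all l2 b, CD S v l2 b, and all m with a + m + b = n the set of l with CD S [Z] l m is finite, then the set of
l with CD S w l n is finite. For w = []: l = []. For w = Z :: v the set is contained in the union over m in 0..n of
the l1 ++ l2 with CD S [Z] l1 m, CD S v l2 (n - m) (cd_split with [Z] and v); if for this m there is no l2, or no l1, this part is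
empty; otherwise both sets are finite (u = [] in the hypothesis for the first; for the second the induction hypothesis,
where for v = u' ++ Z' :: v' the hypothesis is used with u = Z :: u', cd_append). Finite image2.
THEOREM: strong induction on n: assume for all m < n and all Y finiteness. Well-founded induction on Y for the relation
TransGen (Nul S), flipped (irreflexive by h, transitive, N finite: Finite.wellFounded_of_trans_of_irrefl): every Z with Nul S Y Z is done
for weight n. The set for Y is contained in the union over the r with lhs r = Y of the r :: l with CD S (rhs r) l (n - wt r), wt r ≤ n.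
Apply lemma A to w = rhs r and n - wt r: with a + m + b = n - wt r; if m < n use the outer induction; if m = n then wt r = 0,
a = 0, b = 0, so Nul S Y Z and the inner induction applies.
-/

set_option autoImplicit false

namespace Pool.Agent.Lib.IXE

open Pool.Agent.Lib.IXD

private theorem inv1 {N R : Type} {S : Sys N R} {Y : N} {l : List R} {n : ℕ} (h : CD S [Y] l n) :
    ∃ r l' n', Y = S.lhs r ∧ l = r :: l' ∧ n = S.wt r + n' ∧ CD S (S.rhs r) l' n' := by
  cases h with
  | cons h => exact ⟨_, _, _, rfl, rfl, rfl, by simpa using h⟩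

private theorem lemA {N R : Type} (S : Sys N R) : ∀ (w : List N) (n : ℕ),
    (∀ (u : List N) (Z : N) (v : List N), w = u ++ Z :: v → ∀ l1 a, CD S u l1 a → ∀ l2 b, CD S v l2 b →
      ∀ m, a + m + b = n → {l : List R | CD S [Z] l m}.Finite) → {l : List R | CD S w l n}.Finite := by
  intro w
  induction w with
  | nil =>
    intro n _
    refine (Set.finite_singleton []).subset fun l hl => ?_
    have hl' : CD S [] l n := hl
    cases hl'
    exact Set.mem_singleton _
  | cons Z v ih =>
    intro n H
    have hfin : ∀ m : Fin (n + 1), (Set.image2 (fun l1 l2 : List R => l1 ++ l2) {l1 : List R | CD S [Z] l1 m}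
        {l2 : List R | CD S v l2 (n - m)}).Finite := by
      intro m
      have hm : (m : ℕ) ≤ n := Nat.le_of_lt_succ m.2
      by_cases hne : (∃ l1, CD S [Z] l1 m) ∧ ∃ l2, CD S v l2 (n - m)
      · obtain ⟨⟨l1, h1⟩, l2, h2⟩ := hne
        refine Set.Finite.image2 _ (H [] Z v rfl [] 0 CD.nil l2 (n - m) h2 m (by omega)) (ih (n - m) ?_)
        intro u' Z' v' hv l1' a h1' l2' b h2' m' hm'
        exact H (Z :: u') Z' v' (by rw [hv]; rfl) (l1 ++ l1') (m + a) (cd_append h1 h1') l2' b h2' m' (by omega)
      · have : Set.image2 (fun l1 l2 : List R => l1 ++ l2) {l1 : List R | CD S [Z] l1 m}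
            {l2 : List R | CD S v l2 (n - m)} = ∅ := by
          refine Set.eq_empty_of_forall_notMem ?_
          rintro x ⟨l1, h1, l2, h2, rfl⟩
          exact hne ⟨⟨l1, h1⟩, ⟨l2, h2⟩⟩
        rw [this]
        exact Set.finite_empty
    refine (Set.finite_iUnion hfin).subset fun l hl => ?_
    obtain ⟨l1, l2, n1, n2, e1, e2, c1, c2⟩ := cd_split (S := S) (w := [Z]) (w' := v) hl
    refine Set.mem_iUnion.2 ⟨⟨n1, by omega⟩, l1, c1, l2, ?_, e1.symm⟩
    show CD S v l2 (n - n1)
    rw [show n - n1 = n2 by omega]
    exact c2

theorem fin_of_acyc {N R : Type} [Finite N] [Finite R] (S : Sys N R) (h : ∀ Y, ¬ NC S Y) : AllFin S := by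
  intro X n
  induction n using Nat.strong_induction_on generalizing X with
  | _ n ih =>
    have t1 : IsTrans N (fun Z Y => Relation.TransGen (Nul S) Y Z) := ⟨fun a b c hab hbc => hbc.trans hab⟩
    have t2 : Std.Irrefl (fun Z Y => Relation.TransGen (Nul S) Y Z) := ⟨fun a h' => h a h'⟩
    have wf := Finite.wellFounded_of_trans_of_irrefl (fun Z Y => Relation.TransGen (Nul S) Y Z)
    refine wf.induction (C := fun Y => {l : List R | CD S [Y] l n}.Finite) X (fun Y ihY => ?_)
    have hfin : ∀ r : {r : R // S.lhs r = Y ∧ S.wt r ≤ n},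
        ((fun l : List R => r.1 :: l) '' {l : List R | CD S (S.rhs r.1) l (n - S.wt r.1)}).Finite := by
      intro r
      refine (lemA S (S.rhs r.1) (n - S.wt r.1) ?_).image _
      intro u Z v hw l1 a h1 l2 b h2 m hm
      by_cases hmn : m < n
      · exact ih m hmn Z
      · have hr := r.2.2
        have hw0 : S.wt r.1 = 0 := by omega
        have ha : a = 0 := by omega
        have hb : b = 0 := by omega
        have hmn' : m = n := by omega
        subst ha hb hmn'
        exact ihY Z (Relation.TransGen.single ⟨r.1, u, v, l1, l2, r.2.1, hw0, hw, h1, h2⟩)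
    refine (Set.finite_iUnion hfin).subset fun l hl => ?_
    obtain ⟨r, l', n', e1, e2, e3, c⟩ := inv1 hl
    refine Set.mem_iUnion.2 ⟨⟨r, e1.symm, by omega⟩, l', ?_, e2.symm⟩
    show CD S (S.rhs r) l' (n - S.wt r)
    rw [show n - S.wt r = n' by omega]
    exact c

end Pool.Agent.Lib.IXE
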