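import Pool.Agent.Lib.IXE.Def
import Pool.Agent.Lib.IXD.CSa

/-!
# Row Pu: a derivation through a symbol with a null cycle gives infinitely many derivations of the same weight

Words. cd_append, cd_split are in IXD/CSa. (1) Relation.TransGen (Nul S) Y Z → ∃ l1 l2, l1 ≠ [] ∧ ∀ l m, CD S [Z] l m → CD S [Y] (l1 ++ l ++ l2) m
(induction over TransGen; one step: l1 = r :: l1', from CD S (u ++ Z :: v) (l1' ++ l ++ l2') (0 + m + 0) by cd_append and CD.cons with w = []).
(2) CD S w l n and r ∈ l → ∃ a l' b m, l = a ++ l' ++ b ∧ CD S [S.lhs r] l' m ∧ ∀ l'', CD S [S.lhs r] l'' m → CD S w (a ++ l'' ++ b) n (induction over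
CD: if r is the first production, split the form lhs r :: w = [lhs r] ++ w by cd_split and rebuild by cd_append, a = []; otherwise the
induction hypothesis with r0 :: a). (3) Suppose the set is finite; then the lengths are bounded, but iterating (1) with Z = Y = lhs r (k times) and
putting the result into (2) gives elements of length > any bound. (For every k there is an l'' with CD S [Y] l'' m and k ≤ l''.length: induction on k.)
-/

set_option autoImplicit false

namespace Pool.Agent.Lib.IXE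

open Pool.Agent.Lib.IXD

private theorem pu_step {N R : Type} {S : Sys N R} {Y Z : N} (h : Nul S Y Z) :
    ∃ l1 l2 : List R, l1 ≠ [] ∧ ∀ l m, CD S [Z] l m → CD S [Y] (l1 ++ l ++ l2) m := by
  obtain ⟨r, u, v, a, b, h1, h2, h3, h4, h5⟩ := h
  refine ⟨r :: a, b, List.cons_ne_nil _ _, fun l m hl => ?_⟩
  have h6 : CD S (S.rhs r ++ []) (a ++ (l ++ b)) (0 + (m + 0)) := by
    rw [h3, List.append_nil]
    exact cd_append h4 (cd_append (w := [Z]) hl h5)
  have h7 := CD.cons h6
  rw [h1, h2] at h7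
  have e1 : r :: (a ++ (l ++ b)) = r :: a ++ l ++ b := by simp
  have e2 : 0 + (0 + (m + 0)) = m := by omega
  rw [e1, e2] at h7
  exact h7

private theorem pu_trans {N R : Type} {S : Sys N R} {Y Z : N} (h : Relation.TransGen (Nul S) Y Z) :
    ∃ l1 l2 : List R, l1 ≠ [] ∧ ∀ l m, CD S [Z] l m → CD S [Y] (l1 ++ l ++ l2) m := by
  induction h with
  | single h => exact pu_step h
  | tail _ h ih =>
    obtain ⟨l1, l2, h1, h2⟩ := ih
    obtain ⟨l1', l2', h1', h2'⟩ := pu_step h
    refine ⟨l1 ++ l1', l2' ++ l2, fun e => h1 (List.append_eq_nil_iff.1 e).1, fun l m hl => ?_⟩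
    have h3 := h2 _ _ (h2' l m hl)
    have e1 : l1 ++ (l1' ++ l ++ l2') ++ l2 = l1 ++ l1' ++ l ++ (l2' ++ l2) := by simp
    rw [e1] at h3
    exact h3

private theorem pu_ctx {N R : Type} {S : Sys N R} {w : List N} {l : List R} {n : ℕ} (h : CD S w l n) {r : R}
    (hr : r ∈ l) : ∃ (a l' b : List R) (m : ℕ), CD S [S.lhs r] l' m ∧
      ∀ l'', CD S [S.lhs r] l'' m → CD S w (a ++ l'' ++ b) n := by
  induction h with
  | nil => cases hr
  | @cons r0 w l n h ih =>
    rcases List.mem_cons.1 hr with h1 | h1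
    · have H : CD S ([S.lhs r0] ++ w) (r0 :: l) (S.wt r0 + n) := CD.cons h
      obtain ⟨l1, l2, n1, n2, -, e2, c1, c2⟩ := cd_split H
      rw [h1]
      refine ⟨[], l1, l2, n1, c1, fun l'' hl => ?_⟩
      rw [e2]
      exact cd_append hl c2
    · obtain ⟨a, l', b, m, c1, c2⟩ := ih h1
      exact ⟨r0 :: a, l', b, m, c1, fun l'' hl => CD.cons (c2 l'' hl)⟩

theorem inf_of_nc {N R : Type} {S : Sys N R} {X₀ : N} {l : List R} {n : ℕ} (h : CD S [X₀] l n) {r : R} (hr : r ∈ l)
    (hc : NC S (S.lhs r)) : {l : List R | CD S [X₀] l n}.Infinite := by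
  intro hfin
  obtain ⟨a, l', b, m, c1, c2⟩ := pu_ctx h hr
  obtain ⟨l1, l2, h1, h2⟩ := pu_trans hc
  have hk : ∀ k : ℕ, ∃ l'', CD S [S.lhs r] l'' m ∧ k ≤ l''.length := by
    intro k
    induction k with
    | zero => exact ⟨l', c1, Nat.zero_le _⟩
    | succ k ih =>
      obtain ⟨l'', h3, h4⟩ := ih
      refine ⟨l1 ++ l'' ++ l2, h2 _ _ h3, ?_⟩
      have h5 := List.length_pos_iff.2 h1
      rw [List.length_append, List.length_append]
      omega
  obtain ⟨B, hB⟩ := (hfin.image List.length).bddAbove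
  obtain ⟨l'', h3, h4⟩ := hk (B + 1)
  have h5 : (a ++ l'' ++ b).length ≤ B := hB ⟨_, c2 l'' h3, rfl⟩
  rw [List.length_append, List.length_append] at h5
  omega

end Pool.Agent.Lib.IXE
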