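import Pool.Agent.Lib.IXE.Fn
import Pool.Agent.Lib.IXE.Pu
import Pool.Agent.Lib.IXE.Cu
import Pool.Agent.Lib.IXD.Tb

/-!
# Row M3: the counts at the weights with finitely many derivations

b = cnt3 (cut S) X₀. The kernel is finite by cs_main (IXD/CSm), the derivations of cut S are finitely many by fin_of_acyc
and cut_acyc. If the derivations of weight n of S are finitely many, then no production r among them has NC S (S.lhs r) (inf_of_nc),
so l' ↦ l'.map Subtype.val is a bijection from the derivations of cut S onto those of S.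
-/

set_option autoImplicit false

namespace Pool.Agent.Lib.IXE

open Pool.Agent.Lib.IXD

theorem cs_main3 {N R : Type} [Finite N] [Finite R] (S : Sys N R) (X₀ : N) :
    ∃ b : ℕ → ZMod 3, FinKer b ∧ ∀ n, {l : List R | CD S [X₀] l n}.Finite → b n = cnt3 S X₀ n := by
  have hfin : AllFin (cut S) := fin_of_acyc (cut S) (cut_acyc S)
  refine ⟨cnt3 (cut S) X₀, cs_main (cut S) X₀ fun n => hfin X₀ n, fun n hn => ?_⟩
  have himg : (fun l' : List {r : R // ¬ NC S (S.lhs r)} => l'.map Subtype.val) '' {l' | CD (cut S) [X₀] l' n} =
      {l : List R | CD S [X₀] l n} := by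
    ext l
    constructor
    · rintro ⟨l', hl', rfl⟩
      exact cut_down hl'
    · intro hl
      obtain ⟨l', h1, h2⟩ := cut_up (S := S) hl fun r hr hc => inf_of_nc hl hr hc hn
      exact ⟨l', h2, h1⟩
  have hinj : Function.Injective (fun l' : List {r : R // ¬ NC S (S.lhs r)} => l'.map Subtype.val) :=
    List.map_injective_iff.2 Subtype.val_injective
  unfold cnt3
  rw [← himg, Set.ncard_image_of_injective _ hinj]

end Pool.Agent.Lib.IXE
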