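import Pool.Agent.Lib.IXE.Ng
import Pool.Agent.Lib.IXE.M3
import Pool.Agent.Lib.IXD.Hg

/-!
# The lengths at which a grammar of the class is wrong or ambiguous
-/

set_option autoImplicit false

namespace Pool.Agent.Lib.IXE

open Pool.Agent.Lib.IXB Pool.Agent.Lib.IXB.Fi Pool.Agent.Lib.IXD

theorem ig_card4 {G : IG Bool} {k n : ℕ}
    (hw : ∀ (l : List (Rule G.V G.I Bool)) (u : List Bool), G.LDer l [Sum.inl (G.start, [])] (u.map Sum.inr) →
      ∃ s ∈ Acc G k u.length, PT G k [] [(G.start, [])] s u.length [] [l])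
    (hL : ∀ u : List Bool, u.length = n → (u ∈ G.lang ↔ u ∈ LC))
    (hu : ∀ (u : List Bool) (l l' : List (Rule G.V G.I Bool)), u.length = n →
      G.LDer l [Sum.inl (G.start, [])] (u.map Sum.inr) → G.LDer l' [Sum.inl (G.start, [])] (u.map Sum.inr) → l = l') :
    (Acc G k n).Finite ∧ (Acc G k n).ncard = Nice.cnt LC n := by
  have ex : ∀ u : {u : List Bool // u ∈ LC ∧ u.length = n}, ∃ s : Acc G k n, ∃ l,
      PT G k [] [(G.start, [])] s.1 n [] [l] ∧ G.LDer l [Sum.inl (G.start, [])] (u.1.map Sum.inr) := by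
    rintro ⟨u, h1, rfl⟩
    obtain ⟨l, hl⟩ := lder_ex (G := G) (u := u) ((hL u rfl).2 h1)
    obtain ⟨s, h2, h3⟩ := hw l u hl
    exact ⟨⟨s, h2⟩, l, h3, hl⟩
  choose g hg using ex
  have hb : Function.Bijective g := by
    constructor
    · rintro ⟨u, h1, h2⟩ ⟨u', h1', h2'⟩ he
      obtain ⟨l, h3, h4⟩ := hg ⟨u, h1, h2⟩
      obtain ⟨l', h3', h4'⟩ := hg ⟨u', h1', h2'⟩
      rw [← he] at h3'
      have h5 := (List.cons.inj (pt_fun h3 h3')).1
      subst h5
      have h6 := lder_fun h4 h4'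
      have h7 : u = u' := List.map_injective_iff.2 Sum.inr_injective h6
      subst h7
      rfl
    · rintro ⟨s, hs⟩
      obtain ⟨l, u, h1, h2, h3⟩ := acc_word hs
      have h4 : u ∈ LC := (hL u h3).1 (LDer_step G h2)
      refine ⟨⟨u, h4, h3⟩, ?_⟩
      obtain ⟨l', h5, h6⟩ := hg ⟨u, h4, h3⟩
      have h8 : l' = l := hu u l' l h3 h6 h2
      subst h8
      have h9 : DL G [] (tg [(G.start, ([] : List G.V))]) [] 0 := DL.nil
      obtain ⟨-, h10, -⟩ := pt_inj h5 h1 rfl h9 h9 (fun e he => by cases he) (fun e he => by cases he)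
      exact Subtype.ext h10
  have hfin : Finite {u : List Bool // u ∈ LC ∧ u.length = n} := Nice.fin_sub (n := n) fun u hu => hu.2
  have h1 := Nat.card_congr (Equiv.ofBijective g hb)
  have h2 : Finite (Acc G k n) := Finite.of_surjective g hb.2
  refine ⟨Set.toFinite _, ?_⟩
  rw [← Nat.card_coe_set_eq]
  exact h1.symm

/-- for the grammars of the class -/
theorem ig_main4 {G : IG Bool} {k : ℕ} (h : Index G k ∨ Copies G k) :
    ¬ Sparse (List.length '' (symmDiff G.lang LC ∪ Amb G)) := by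
  intro hE
  set E := List.length '' (symmDiff G.lang LC ∪ Amb G) with hEd
  have hw : ∀ (l : List (Rule (red G).V (red G).I Bool)) (u : List Bool),
      (red G).LDer l [Sum.inl ((red G).start, [])] (u.map Sum.inr) →
      ∃ s ∈ Acc (red G) k u.length, PT (red G) k [] [((red G).start, [])] s u.length [] [l] := by
    intro l u hl
    rcases h with hI | hC
    · exact word_acc (red_index hI) hl
    · exact word_acc2 (red_copies hC) hl
  have hL' : ∀ n, n ∉ E → ∀ u : List Bool, u.length = n → (u ∈ (red G).lang ↔ u ∈ LC) := by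
    intro n hn u hu
    rw [red_lang]
    by_contra h3
    have h4 : u ∈ symmDiff G.lang LC := by
      rw [Set.mem_symmDiff]
      tauto
    exact hn ⟨u, Or.inl h4, hu⟩
  have hu' : ∀ n, n ∉ E → ∀ (u : List Bool) (l l' : List (Rule (red G).V (red G).I Bool)), u.length = n →
      (red G).LDer l [Sum.inl ((red G).start, [])] (u.map Sum.inr) →
      (red G).LDer l' [Sum.inl ((red G).start, [])] (u.map Sum.inr) → l = l' := by
    intro n hn u l l' hu hl hl'
    by_contra hne
    exact hn ⟨u, Or.inr (amb_of_red hne hl hl'), hu⟩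
  obtain ⟨N, R, hN, hR, S, X, φ, hφ, hS⟩ := fin_sys (red G) k (red G).start
  have hfin : ∀ n, n ∉ E → {l | CD S [X] l n}.Finite := fun n hn => by
    refine Set.Finite.of_finite_image (f := φ) ?_ hφ.injOn
    rw [hS n]
    exact (ig_card4 hw (hL' n hn) (hu' n hn)).1
  have hc : ∀ n, n ∉ E → cnt3 S X n = ((Nice.cnt LC n : ℕ) : ZMod 3) := fun n hn => by
    unfold cnt3
    rw [← Set.ncard_image_of_injective _ hφ, hS n]
    exact congrArg Nat.cast (ig_card4 hw (hL' n hn) (hu' n hn)).2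
  obtain ⟨b, hb, hbc⟩ := cs_main3 S X
  refine lc_not_finker3 hE (b := b) ?_ hb
  intro n hn
  rw [hbc n (hfin n hn)]
  exact hc n hn

end Pool.Agent.Lib.IXE
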