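import Mathlib

/-!
# Sparse sets of natural numbers
-/

set_option autoImplicit false

namespace Pool.Agent.Lib.IXE

/-- the sum of `log (n + 1) / (n + 1)` over the numbers `n` in `E` is finite -/
def Sparse (E : Set ℕ) : Prop := Summable fun n : E => Real.log (((n : ℕ) : ℝ) + 1) / (((n : ℕ) : ℝ) + 1)

end Pool.Agent.Lib.IXE
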